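import Pool.Agent.Helper25_AT2.Bru
import Pool.Agent.Helper69_K9.Fmg
import Pool.Agent.Helper9_PP.Add
import Pool.Agent.Helper75_PP.RelC

/-!
# Squad AT2, row TEA: only the part over the conjugates of `(U, f)` contributes
-/

open scoped BigOperators

set_option linter.unusedSectionVars false

noncomputable section

namespace Pool.Agent.PP.T2.H25

open Pool.Agent.Helper51_AWC Pool.Agent.Helper79_WRA Pool.Agent.PP Pool.Agent.PP.KF
open Pool.Agent.PP.K9 Pool.Agent.PP.K9.H97 Pool.Agent.PP.H75 Pool.Agent.PP.T3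

attribute [local instance] Ideal.Quotient.field

/-- the order of `N(Q) / Q` -/
theorem card_quot {G : Type} [Group G] [Finite G] {Q : Subgroup G} (hQ : Q ≠ ⊥) :
    Nat.card (Subgroup.normalizer (Q : Set G) ⧸ Q.subgroupOf (Subgroup.normalizer (Q : Set G))) <
      Nat.card G := by
  have h1 := Subgroup.card_eq_card_quotient_mul_card_subgroup
    (Q.subgroupOf (Subgroup.normalizer (Q : Set G)))
  have h2 : Nat.card (Q.subgroupOf (Subgroup.normalizer (Q : Set G))) = Nat.card Q :=
    Nat.card_congr (Subgroup.subgroupOfEquivOfLe Subgroup.le_normalizer).toEquiv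
  have h3 : 1 < Nat.card Q := (Subgroup.one_lt_card_iff_ne_bot Q).2 hQ
  have h4 : Nat.card (Subgroup.normalizer (Q : Set G)) ≤ Nat.card G :=
    Subgroup.card_le_card_group _
  have h5 : 0 < Nat.card (Subgroup.normalizer (Q : Set G) ⧸
      Q.subgroupOf (Subgroup.normalizer (Q : Set G))) := Nat.card_pos
  rw [h2] at h1
  refine lt_of_lt_of_le ?_ h4
  rw [h1]
  exact (Nat.lt_mul_iff_one_lt_right h5).2 h3

/-- a good subgroup of a block with abelian defect groups is abelian -/
theorem good_ab {ℓ : ℕ} [Fact ℓ.Prime] {M : Ideal (integralClosure ℤ ℂ)} [M.IsMaximal]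
    (hM : (ℓ : integralClosure ℤ ℂ) ∈ M) {G : Type} [Group G] [Finite G] {e γ : G → FF M}
    {V : Subgroup G} (hL : Ld ℓ e V γ) {Q : Subgroup G} (hQ : IsPGroup ℓ Q) (hg : Gd e Q) :
    ∀ a ∈ Q, ∀ b ∈ Q, a * b = b * a := by
  obtain ⟨g, hg'⟩ := (H69.fmg ℓ M hM G e hL.blk V hL.tp).1 Q hQ hg
  intro a ha b hb
  have h1 := hL.ab _ (mem_conjS.1 (hg' ha)) _ (mem_conjS.1 (hg' hb))
  have h2 : g⁻¹ * (a * b) * g = g⁻¹ * (b * a) * g := by
    calc g⁻¹ * (a * b) * g = g⁻¹ * a * g * (g⁻¹ * b * g) := by group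
      _ = g⁻¹ * b * g * (g⁻¹ * a * g) := h1
      _ = g⁻¹ * (b * a) * g := by group
  exact mul_left_cancel (mul_right_cancel h2)

theorem tea (ort : OrtStmt) (tya : TyaStmt) : TeaStmt := by
  intro ℓ _ M _ hM G _ _ e V γ hL a ha hexp f hf hIh Q hQ hQ1
  classical
  have hF : GoodF ℓ (FF M) := H50.fld ℓ Fact.out M hM
  obtain ⟨U, hU⟩ : ∃ U, U = Uw (ℓ ^ (a - 1)) V := ⟨_, rfl⟩
  have hh : Hf e U f := by rw [hU]; exact hf_of hf
  have ho : ∀ g h : G, Bt U Q g → Bt U Q h → conjS g U ≠ conjS h U →
      mulF (br Q (cj g f)) (br Q (cj h f)) = 0 := by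
    rw [hU]
    exact ort ℓ M hM G e V γ hL (ℓ ^ (a - 1)) f hf Q hQ
  rw [← hU]
  have heI : IsIdem e := hL.blk.1
  obtain ⟨-, -, b3⟩ := H20.brm ℓ (FF M) hF G Q (Subgroup.normalizer (Q : Set G)) hQ
    (cent_le_norm Q) le_rfl
  obtain ⟨e', he'⟩ : ∃ e' : Subgroup.normalizer (Q : Set G) → FF M,
    e' = fun t : Subgroup.normalizer (Q : Set G) => br Q e t := ⟨_, rfl⟩
  obtain ⟨B, hB⟩ : ∃ B : Subgroup.normalizer (Q : Set G) → FF M,
    B = fun t : Subgroup.normalizer (Q : Set G) => brU U Q f t := ⟨_, rfl⟩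
  obtain ⟨p, hp⟩ : ∃ p, p = QuotientGroup.mk' (Q.subgroupOf (Subgroup.normalizer (Q : Set G))) :=
    ⟨_, rfl⟩
  have hps : Function.Surjective p := by rw [hp]; exact QuotientGroup.mk'_surjective _
  have hpk : p.ker = Q.subgroupOf (Subgroup.normalizer (Q : Set G)) := by
    rw [hp]; exact QuotientGroup.ker_mk' _
  have hbs : ∀ x, x ∉ Subgroup.normalizer (Q : Set G) → br Q e x = 0 := fun x hx =>
    br_out _ fun hx' => hx (cent_le_norm Q hx')
  have heid : IsIdem e' := by rw [he']; exact b3 e heI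
  have hBid : IsIdem B := by rw [hB]; exact brU_idem hF hQ hh ho (cent_le_norm Q) le_rfl
  have heB : mulF e' B = B := by
    rw [he', hB, ← mulF_res _ (brU U Q f) hbs, brU_und hF hQ heI.1 hh]
  unfold YQ
  rw [← hp, ← he', ← hB]
  by_cases hgd : Gd e Q
  · obtain ⟨hE, hBE⟩ := H46.isIdem_sub heid hBid heB
    have hpe : push p e' = push p (e' - B) + push p B := by rw [← push_add, sub_add_cancel]
    have h1 : IsIdem (push p (e' - B)) := push_isIdem hps hE
    have h2 : IsIdem (push p B) := push_isIdem hps hBid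
    have h12 : mulF (push p (e' - B)) (push p B) = 0 := by
      rw [← push_mulF, H46.mulF_comm hE.1, hBE, push_zero]
    rw [hpe, H9.YY_add hF H94.nch H20.nls H20.brm H20.eig H20.ibf ⊤ h1 h2 h12]
    have hz : YY ℓ ⊤ (push p (e' - B)) = 0 := by
      refine H9.addStmt ℓ (FF M) hF _ ⊤ inferInstance _ h1 fun f₁ hf₁ hEf => ?_
      have hef : mulF (push p e') f₁ = f₁ := by
        have h3 : mulF (push p e') (push p (e' - B)) = push p (e' - B) := by
          rw [← push_mulF]
          congr 1
          have h4 : mulF e' e' = mulF e' (e' - B) + mulF e' B := by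
            rw [← H46.mulF_add, sub_add_cancel]
          rw [heid.2, heB] at h4
          exact (sub_eq_of_eq_add h4).symm
        rw [← hEf, ← mulF_assoc, h3]
      have hk : ∀ g : G, conjS g U ≤ Q →
          mulF (push p (fun t : Subgroup.normalizer (Q : Set G) => br Q (cj g f) t)) f₁ = 0 := by
        intro g hg
        have hab := good_ab hM hL hQ hgd
        have hb : Bt U Q g := by
          refine ⟨hg, fun q hq => ?_⟩
          rw [Subgroup.mem_centralizer_iff]
          intro y hy
          exact hab y (hg hy) q hq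
        have hEs : ∀ x, x ∉ Subgroup.normalizer (Q : Set G) → br Q (cj g f) x = 0 := fun x hx =>
          br_out _ fun hx' => hx (cent_le_norm Q hx')
        have k1 : mulF e' (fun t : Subgroup.normalizer (Q : Set G) => br Q (cj g f) t) =
            fun t : Subgroup.normalizer (Q : Set G) => br Q (cj g f) t := by
          rw [he', ← mulF_res _ (br Q (cj g f)) hbs, e_und hF hQ heI.1 hh hb]
        have k2 : mulF (fun t : Subgroup.normalizer (Q : Set G) => br Q (cj g f) t) B =
            fun t : Subgroup.normalizer (Q : Set G) => br Q (cj g f) t := by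
          rw [hB, ← mulF_res _ (brU U Q f) hEs]
          have k3 := en_brU hF hQ hh ho g
          rw [en_of hb] at k3
          rw [k3]
        have k4 : mulF (fun t : Subgroup.normalizer (Q : Set G) => br Q (cj g f) t) (e' - B) =
            0 := by
          have k5 : mulF (fun t : Subgroup.normalizer (Q : Set G) => br Q (cj g f) t) e' =
              mulF (fun t : Subgroup.normalizer (Q : Set G) => br Q (cj g f) t) (e' - B) +
              mulF (fun t : Subgroup.normalizer (Q : Set G) => br Q (cj g f) t) B := by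
            rw [← H46.mulF_add, sub_add_cancel]
          rw [← H46.mulF_comm heid.1, k1, k2] at k5
          exact left_eq_add.1 (by rw [add_comm] at k5; exact k5)
        rw [← hEf, ← mulF_assoc, ← push_mulF, k4, push_zero, zero_mulF]
      have hpe' : mulF (push p (fun t : Subgroup.normalizer (Q : Set G) => br Q e t)) f₁ = f₁ := by
        rw [← he']
        exact hef
      obtain ⟨V', γ', hL', hex', hπ, hix⟩ := tya ℓ M hM G e V γ hL a ha hexp f hf Q hQ _ p hps
        hpk f₁ hf₁ hpe' (by rw [← hU]; exact hk)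
      exact hIh _ (card_quot hQ1) f₁ V' γ' hL' hex' hπ hix
    rw [hz, zero_add]
  · have h0 : e' = 0 := by
      rw [he']
      funext t
      by_cases ht : (t : G) ∈ Subgroup.centralizer (Q : Set G)
      · rw [br_in _ ht]
        by_contra h
        exact hgd ⟨t, ht, h⟩
      · rw [br_out _ ht]
        rfl
    have h1 : B = 0 := by rw [← heB, h0, zero_mulF]
    rw [h0, h1]

end Pool.Agent.PP.T2.H25
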