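import Pool.Agent.AT2.Stmts
import Pool.Agent.Helper97_K9.NZB
import Pool.Agent.Helper74_PP.Brt
import Pool.Agent.Helper20_PP.Nls
import Pool.Agent.Helper46_PP.Alg

/-!
# Squad AT2: the idempotents `br_Q(cj g f)` over the conjugates of `(U, f)` and their sum `brU`
-/

open scoped BigOperators

set_option linter.unusedSectionVars false

noncomputable section

namespace Pool.Agent.PP.T2.H25

open Pool.Agent.Helper51_AWC Pool.Agent.Helper79_WRA Pool.Agent.PP Pool.Agent.PP.KF
open Pool.Agent.PP.K9 Pool.Agent.PP.K9.H97 Pool.Agent.PP.H75 Pool.Agent.PP.T3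

section group

variable {G : Type} [Group G]

theorem conjS_mul (g h : G) (D : Subgroup G) : conjS (g * h) D = conjS g (conjS h D) := by
  ext x
  rw [mem_conjS, mem_conjS, mem_conjS]
  have : (g * h)⁻¹ * x * (g * h) = h⁻¹ * (g⁻¹ * x * g) * h := by group
  rw [this]

theorem cent_conjS {U : Subgroup G} {g x : G} :
    g⁻¹ * x * g ∈ Subgroup.centralizer (U : Set G) ↔
      x ∈ Subgroup.centralizer ((conjS g U : Subgroup G) : Set G) := by
  rw [Subgroup.mem_centralizer_iff, Subgroup.mem_centralizer_iff]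
  constructor
  · intro h y hy
    have h1 := h (g⁻¹ * y * g) (mem_conjS.1 hy)
    have h2 : g⁻¹ * (y * x) * g = g⁻¹ * (x * y) * g := by
      calc g⁻¹ * (y * x) * g = g⁻¹ * y * g * (g⁻¹ * x * g) := by group
        _ = g⁻¹ * x * g * (g⁻¹ * y * g) := h1
        _ = g⁻¹ * (x * y) * g := by group
    exact mul_left_cancel (mul_right_cancel h2)
  · intro h y hy
    have hy' : g * y * g⁻¹ ∈ ((conjS g U : Subgroup G) : Set G) := by
      have : g⁻¹ * (g * y * g⁻¹) * g = y := by group
      exact mem_conjS.2 (by rw [this]; exact hy)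
    have h1 := h _ hy'
    calc y * (g⁻¹ * x * g) = g⁻¹ * (g * y * g⁻¹ * x) * g := by group
      _ = g⁻¹ * (x * (g * y * g⁻¹)) * g := by rw [h1]
      _ = g⁻¹ * x * g * y := by group

theorem conjS_norm {Q : Subgroup G} {n : G} (hn : n ∈ Subgroup.normalizer (Q : Set G)) :
    conjS n Q = Q := mem_normalizer_iff_conjS.1 hn

theorem cent_le_norm (U : Subgroup G) :
    Subgroup.centralizer (U : Set G) ≤ Subgroup.normalizer (U : Set G) := by
  intro x hx
  rw [Subgroup.mem_centralizer_iff] at hx
  rw [Subgroup.mem_normalizer_iff]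
  intro y
  constructor
  · intro hy
    rw [← hx y hy, mul_inv_cancel_right]
    exact hy
  · intro hy
    have h1 := hx _ hy
    have h2 : x * y * x⁻¹ = y := by
      have h3 : x * (x * y * x⁻¹) = x * y := by rw [← h1]; group
      exact mul_left_cancel h3
    rwa [h2] at hy

theorem bt_norm {U Q : Subgroup G} {g n : G} (hn : n ∈ Subgroup.normalizer (Q : Set G))
    (h : Bt U Q g) : Bt U Q (n * g) := by
  obtain ⟨h1, h2⟩ := h
  constructor
  · rw [conjS_mul, ← conjS_norm hn]
    exact conjS_mono.2 h1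
  · intro q hq
    rw [conjS_mul, ← cent_conjS]
    apply h2
    have h3 := conjS_norm hn
    rw [← h3, mem_conjS] at hq
    exact hq

theorem bt_norm_iff {U Q : Subgroup G} {g n : G} (hn : n ∈ Subgroup.normalizer (Q : Set G)) :
    Bt U Q (n * g) ↔ Bt U Q g := by
  refine ⟨fun h => ?_, bt_norm hn⟩
  have h1 := bt_norm (inv_mem hn) h
  rwa [inv_mul_cancel_left] at h1

theorem bt_coset {U Q : Subgroup G} {g x : G} (hx : x ∈ Subgroup.normalizer (U : Set G)) :
    Bt U Q (g * x) ↔ Bt U Q g := by
  unfold Bt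
  rw [conjS_mul, conjS_norm hx]

end group

section br

variable {F G : Type} [Field F] [Group G]

theorem cj_br_conj (U : Subgroup G) (g : G) (a : G → F) :
    cj g (br U a) = br (conjS g U) (cj g a) := by
  funext x
  by_cases hx : x ∈ Subgroup.centralizer ((conjS g U : Subgroup G) : Set G)
  · have h1 := cent_conjS.2 hx
    rw [br, if_pos hx, cj, br, if_pos h1, cj]
  · have h1 : ¬ (g⁻¹ * x * g ∈ Subgroup.centralizer (U : Set G)) := fun h => hx (cent_conjS.1 h)
    rw [br, if_neg hx, cj, br, if_neg h1]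

theorem br_br {U Q : Subgroup G} (h : U ≤ Q) (a : G → F) : br Q (br U a) = br Q a := by
  funext x
  by_cases hx : x ∈ Subgroup.centralizer (Q : Set G)
  · have h1 : x ∈ Subgroup.centralizer (U : Set G) := Subgroup.centralizer_le h hx
    rw [br, if_pos hx, br, if_pos h1, br, if_pos hx]
  · rw [br, if_neg hx, br, if_neg hx]

end br

section mul

variable {F G : Type} [Field F] [Group G] [Finite G]

theorem mulF_sum {ι : Type} (s : Finset ι) (a : G → F) (b : ι → G → F) :
    mulF a (∑ i ∈ s, b i) = ∑ i ∈ s, mulF a (b i) := by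
  classical
  induction s using Finset.induction_on with
  | empty => rw [Finset.sum_empty, Finset.sum_empty, H46.mulF_zero]
  | insert i s hi ih => rw [Finset.sum_insert hi, Finset.sum_insert hi, H46.mulF_add, ih]

theorem zero_mulF (a : G → F) : mulF (0 : G → F) a = 0 := by
  funext x
  unfold mulF
  rw [finsum_eq_zero_of_forall_eq_zero]
  · rfl
  · intro t
    exact zero_mul _

theorem add_mulF (a b c : G → F) : mulF (a + b) c = mulF a c + mulF b c := by
  have := Fintype.ofFinite G
  funext x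
  simp only [mulF, Pi.add_apply, finsum_eq_sum_of_fintype, add_mul, Finset.sum_add_distrib]

theorem sum_mulF {ι : Type} (s : Finset ι) (a : ι → G → F) (b : G → F) :
    mulF (∑ i ∈ s, a i) b = ∑ i ∈ s, mulF (a i) b := by
  classical
  induction s using Finset.induction_on with
  | empty => rw [Finset.sum_empty, Finset.sum_empty, zero_mulF]
  | insert i s hi ih => rw [Finset.sum_insert hi, Finset.sum_insert hi, add_mulF, ih]

end mul

/-! ## The terms -/

section term

variable {F G : Type} [Field F] [Group G] [Finite G] {ℓ : ℕ} {e f γ : G → F}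
  {V U Q : Subgroup G} {g : G}

/-- the hypotheses on `f` which are used -/
structure Hf (e : G → F) (U : Subgroup G) (f : G → F) : Prop where
  inv : ∀ x ∈ Subgroup.normalizer (U : Set G), cj x f = f
  idem : mulF f f = f
  und : mulF (br U e) f = f

theorem hf_of (h : Fs ℓ e V U γ f) : Hf e U f :=
  ⟨fun _ hx => h.blk.ix.inv hx, h.blk.mul, h.und⟩

theorem e_inv (h : Hf e U f) (hb : Bt U Q g) {p : G} (hp : p ∈ Q) : cj p (cj g f) = cj g f := by
  have h1 : g⁻¹ * p * g ∈ Subgroup.normalizer (U : Set G) :=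
    cent_le_norm U (cent_conjS.2 (hb.2 hp))
  have h2 := h.inv _ h1
  calc cj p (cj g f) = cj g (cj (g⁻¹ * p * g) f) := by
        rw [cj_cj, cj_cj]
        congr 1
        group
    _ = cj g f := by rw [h2]

theorem e_idem (hF : GoodF ℓ F) (hQ : IsPGroup ℓ Q) (h : Hf e U f) (hb : Bt U Q g) :
    mulF (br Q (cj g f)) (br Q (cj g f)) = br Q (cj g f) := by
  rw [← br_mulF H74.orb hF hQ (fun p hp => e_inv h hb hp) (fun p hp => e_inv h hb hp),
    ← cj_mulF, h.idem]

theorem e_und (hF : GoodF ℓ F) (hQ : IsPGroup ℓ Q) (he : IsCl e) (h : Hf e U f)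
    (hb : Bt U Q g) : mulF (br Q e) (br Q (cj g f)) = br Q (cj g f) := by
  have h1 : mulF (br (conjS g U) e) (cj g f) = cj g f := by
    have h2 := congrArg (cj g) h.und
    rw [cj_mulF, cj_br_conj, cj_isCl g he] at h2
    exact h2
  have h3 : ∀ p ∈ Q, cj p (br (conjS g U) e) = br (conjS g U) e := by
    intro p hp
    rw [cj_br_conj, cj_isCl p he, conjS_norm (cent_le_norm _ (hb.2 hp))]
  have h4 := br_mulF H74.orb hF hQ h3 (fun p hp => e_inv h hb hp)
  rw [h1, br_br hb.1] at h4
  exact h4.symm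

open Classical in
/-- the term of a coset -/
def En (U Q : Subgroup G) (f : G → F) (g : G) : G → F := if Bt U Q g then br Q (cj g f) else 0

theorem en_of (hb : Bt U Q g) : En U Q f g = br Q (cj g f) := by
  unfold En
  rw [if_pos hb]

theorem en_not (hb : ¬ Bt U Q g) : En U Q f g = 0 := by
  unfold En
  rw [if_neg hb]

theorem en_supp (g : G) : ∀ x, x ∉ Subgroup.centralizer (Q : Set G) → En U Q f g x = 0 := by
  intro x hx
  by_cases hb : Bt U Q g
  · rw [en_of hb, br_out _ hx]
  · rw [en_not hb]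
    rfl

theorem en_coset (h : Hf e U f) {x : G} (hx : x ∈ Subgroup.normalizer (U : Set G)) :
    En U Q f (g * x) = En U Q f g := by
  by_cases hb : Bt U Q g
  · rw [en_of hb, en_of ((bt_coset hx).2 hb), ← cj_cj, h.inv x hx]
  · rw [en_not hb, en_not (fun h' => hb ((bt_coset hx).1 h'))]

theorem en_out (h : Hf e U f) (t : G) :
    En U Q f ((t : G ⧸ Subgroup.normalizer (U : Set G)).out) = En U Q f t := by
  have h1 : t⁻¹ * ((t : G ⧸ Subgroup.normalizer (U : Set G)).out) ∈
      Subgroup.normalizer (U : Set G) := by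
    rw [← QuotientGroup.eq]
    exact (QuotientGroup.out_eq' _).symm
  have h2 := en_coset (g := t) (Q := Q) h h1
  rwa [mul_inv_cancel_left] at h2

theorem cj_en {n : G} (hn : n ∈ Subgroup.normalizer (Q : Set G)) (g : G) :
    cj n (En U Q f g) = En U Q f (n * g) := by
  by_cases hb : Bt U Q g
  · rw [en_of hb, en_of ((bt_norm_iff hn).2 hb), cj_br_conj, conjS_norm hn, cj_cj]
  · rw [en_not hb, en_not (fun h' => hb ((bt_norm_iff hn).1 h')), cj_zero]

theorem en_idem (hF : GoodF ℓ F) (hQ : IsPGroup ℓ Q) (h : Hf e U f) (g : G) :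
    mulF (En U Q f g) (En U Q f g) = En U Q f g := by
  by_cases hb : Bt U Q g
  · rw [en_of hb]
    exact e_idem hF hQ h hb
  · rw [en_not hb]
    exact zero_mulF 0

theorem en_und (hF : GoodF ℓ F) (hQ : IsPGroup ℓ Q) (he : IsCl e) (h : Hf e U f) (g : G) :
    mulF (br Q e) (En U Q f g) = En U Q f g := by
  by_cases hb : Bt U Q g
  · rw [en_of hb]
    exact e_und hF hQ he h hb
  · rw [en_not hb]
    exact H46.mulF_zero _

theorem en_orth (ho : ∀ g h : G, Bt U Q g → Bt U Q h → conjS g U ≠ conjS h U →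
    mulF (br Q (cj g f)) (br Q (cj h f)) = 0)
    {p q : G ⧸ Subgroup.normalizer (U : Set G)} (hpq : p ≠ q) :
    mulF (En U Q f p.out) (En U Q f q.out) = 0 := by
  by_cases hb : Bt U Q p.out
  · by_cases hc : Bt U Q q.out
    · rw [en_of hb, en_of hc]
      refine ho _ _ hb hc fun h' => hpq ?_
      have h1 : conjS (p.out⁻¹ * q.out) U = U := by
        rw [conjS_mul, ← h', ← conjS_mul, inv_mul_cancel]
        ext x
        rw [mem_conjS, inv_one, one_mul, mul_one]
      have h2 := mem_normalizer_iff_conjS.2 h1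
      rw [← QuotientGroup.eq, QuotientGroup.out_eq', QuotientGroup.out_eq'] at h2
      exact h2
    · rw [en_not hc]
      exact H46.mulF_zero _
  · rw [en_not hb]
    exact zero_mulF _

/-! ## The sum -/

theorem brU_eq [Fintype (G ⧸ Subgroup.normalizer (U : Set G))] :
    brU U Q f = ∑ q : G ⧸ Subgroup.normalizer (U : Set G), En U Q f q.out := by
  classical
  funext t
  unfold brU
  rw [finsum_eq_sum_of_fintype, Finset.sum_apply]
  refine Finset.sum_congr rfl fun q _ => ?_
  rw [finsum_eq_if]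
  by_cases hb : Bt U Q q.out
  · rw [if_pos hb, en_of hb]
  · rw [if_neg hb, en_not hb]
    rfl

theorem brU_supp : ∀ x, x ∉ Subgroup.centralizer (Q : Set G) → brU U Q f x = 0 := by
  intro x hx
  have := Fintype.ofFinite (G ⧸ Subgroup.normalizer (U : Set G))
  rw [brU_eq, Finset.sum_apply]
  exact Finset.sum_eq_zero fun q _ => en_supp _ x hx

theorem cj_sum {ι : Type} (s : Finset ι) (n : G) (b : ι → G → F) :
    cj n (∑ i ∈ s, b i) = ∑ i ∈ s, cj n (b i) := by
  funext x
  rw [cj, Finset.sum_apply, Finset.sum_apply]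
  rfl

theorem cj_brU (h : Hf e U f) {n : G} (hn : n ∈ Subgroup.normalizer (Q : Set G)) :
    cj n (brU U Q f) = brU U Q f := by
  have := Fintype.ofFinite (G ⧸ Subgroup.normalizer (U : Set G))
  rw [brU_eq, cj_sum, ← Equiv.sum_comp (MulAction.toPerm n :
    Equiv.Perm (G ⧸ Subgroup.normalizer (U : Set G))) fun q => En U Q f q.out]
  refine Finset.sum_congr rfl fun q _ => ?_
  obtain ⟨t, rfl⟩ := QuotientGroup.mk_surjective q
  have h1 : (MulAction.toPerm n : Equiv.Perm (G ⧸ Subgroup.normalizer (U : Set G)))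
      (t : G ⧸ Subgroup.normalizer (U : Set G)) =
      ((n * t : G) : G ⧸ Subgroup.normalizer (U : Set G)) := rfl
  rw [h1, en_out h, en_out h, cj_en hn]

theorem brU_und (hF : GoodF ℓ F) (hQ : IsPGroup ℓ Q) (he : IsCl e) (h : Hf e U f) :
    mulF (br Q e) (brU U Q f) = brU U Q f := by
  have := Fintype.ofFinite (G ⧸ Subgroup.normalizer (U : Set G))
  rw [brU_eq, mulF_sum]
  exact Finset.sum_congr rfl fun q _ => en_und hF hQ he h _

theorem en_brU (hF : GoodF ℓ F) (hQ : IsPGroup ℓ Q) (h : Hf e U f)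
    (ho : ∀ g h : G, Bt U Q g → Bt U Q h → conjS g U ≠ conjS h U →
      mulF (br Q (cj g f)) (br Q (cj h f)) = 0) (g : G) :
    mulF (En U Q f g) (brU U Q f) = En U Q f g := by
  have := Fintype.ofFinite (G ⧸ Subgroup.normalizer (U : Set G))
  rw [← en_out (Q := Q) h g, brU_eq, mulF_sum,
    Finset.sum_eq_single (g : G ⧸ Subgroup.normalizer (U : Set G))]
  · exact en_idem hF hQ h _
  · intro q _ hq
    exact en_orth ho (Ne.symm hq)
  · intro h'
    exact absurd (Finset.mem_univ _) h'

theorem brU_mul (hF : GoodF ℓ F) (hQ : IsPGroup ℓ Q) (h : Hf e U f)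
    (ho : ∀ g h : G, Bt U Q g → Bt U Q h → conjS g U ≠ conjS h U →
      mulF (br Q (cj g f)) (br Q (cj h f)) = 0) :
    mulF (brU U Q f) (brU U Q f) = brU U Q f := by
  have := Fintype.ofFinite (G ⧸ Subgroup.normalizer (U : Set G))
  have h1 : mulF (∑ q : G ⧸ Subgroup.normalizer (U : Set G), En U Q f q.out) (brU U Q f) =
      ∑ q : G ⧸ Subgroup.normalizer (U : Set G), En U Q f q.out := by
    rw [sum_mulF]
    exact Finset.sum_congr rfl fun q _ => en_brU hF hQ h ho _
  rwa [← brU_eq] at h1

/-- `brU` is a central idempotent of a group between the centraliser and the normaliser -/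
theorem brU_idem (hF : GoodF ℓ F) (hQ : IsPGroup ℓ Q) (h : Hf e U f)
    (ho : ∀ g h : G, Bt U Q g → Bt U Q h → conjS g U ≠ conjS h U →
      mulF (br Q (cj g f)) (br Q (cj h f)) = 0) {X : Subgroup G}
    (hX : Subgroup.centralizer (Q : Set G) ≤ X) (hX' : X ≤ Subgroup.normalizer (Q : Set G)) :
    IsIdem (fun t : X => brU U Q f t) := by
  constructor
  · intro x y
    exact (cj_eq_iff _ _).1 (cj_brU h (hX' y.2)) x
  · rw [← mulF_res X (brU U Q f) (fun x hx => brU_supp x fun hx' => hx (hX hx')),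
      brU_mul hF hQ h ho]

end term

end Pool.Agent.PP.T2.H25
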